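import Pool.Agent.helper52.HY.Spec

/-! hy:COV: pigeonhole for points in an annulus of the hyperbolic plane. -/

set_option autoImplicit false

open Complex Metric Set Filter Topology MeasureTheory
open Pool.Agent.helper98.ILF Pool.Agent.helper16.Multibrot

noncomputable section

namespace HY

theorem COV_exp (s t : ℝ) : ‖Complex.exp (s * I) - Complex.exp (t * I)‖ ≤ |s - t| := by
  have h1 : Complex.exp (s * I) - Complex.exp (t * I) =
      Complex.exp (t * I) * (Complex.exp (I * ((s - t : ℝ) : ℂ)) - 1) := by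
    rw [mul_sub, ← Complex.exp_add, mul_one]
    congr 2
    push_cast
    ring
  rw [h1, norm_mul, Complex.norm_exp_ofReal_mul_I, one_mul]
  exact Real.norm_exp_I_mul_ofReal_sub_one_le

theorem COV_dist (x y : ℂ) (hy : ‖y‖ ≤ 1) : ‖x - y‖ ≤ |‖x‖ - ‖y‖| + |Complex.arg x - Complex.arg y| := by
  have h1 : x - y = ((‖x‖ - ‖y‖ : ℝ) : ℂ) * Complex.exp (Complex.arg x * I) +
      (‖y‖ : ℂ) * (Complex.exp (Complex.arg x * I) - Complex.exp (Complex.arg y * I)) := by
    have hx' := Complex.norm_mul_exp_arg_mul_I x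
    have hy' := Complex.norm_mul_exp_arg_mul_I y
    push_cast
    rw [mul_sub, hy', sub_mul, hx']
    ring
  calc ‖x - y‖ = ‖((‖x‖ - ‖y‖ : ℝ) : ℂ) * Complex.exp (Complex.arg x * I) +
      (‖y‖ : ℂ) * (Complex.exp (Complex.arg x * I) - Complex.exp (Complex.arg y * I))‖ := by rw [← h1]
    _ ≤ ‖((‖x‖ - ‖y‖ : ℝ) : ℂ) * Complex.exp (Complex.arg x * I)‖ +
      ‖(‖y‖ : ℂ) * (Complex.exp (Complex.arg x * I) - Complex.exp (Complex.arg y * I))‖ := norm_add_le _ _
    _ ≤ |‖x‖ - ‖y‖| + |Complex.arg x - Complex.arg y| := by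
      rw [norm_mul, norm_mul, Complex.norm_exp_ofReal_mul_I, mul_one, Complex.norm_real, Complex.norm_real,
        Real.norm_eq_abs, norm_norm]
      have h2 := COV_exp (Complex.arg x) (Complex.arg y)
      have h3 : ‖y‖ * ‖Complex.exp (Complex.arg x * I) - Complex.exp (Complex.arg y * I)‖ ≤
          1 * |Complex.arg x - Complex.arg y| := mul_le_mul hy h2 (norm_nonneg _) zero_le_one
      linarith

theorem COV_floor {u v : ℝ} (hu : 0 ≤ u) (hv : 0 ≤ v) (h : ⌊u⌋₊ = ⌊v⌋₊) : |u - v| ≤ 1 := by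
  have h1 := Nat.floor_le hu
  have h2 := Nat.floor_le hv
  have h3 := Nat.lt_floor_add_one u
  have h4 := Nat.lt_floor_add_one v
  rw [h] at h1 h3
  rw [abs_le]
  constructor <;> linarith

theorem COV : COV_stmt := by
  intro η hη
  refine ⟨(⌊16 / η⌋₊ + 1) * (⌈448 / η⌉₊ + 1), ?_⟩
  intro m ι y M hι hcard
  set w : ℝ := (1 / 2 : ℝ) ^ m with hw
  have hw0 : 0 < w := by positivity
  have hw2 : w * 2 ^ m = 1 := by
    rw [hw, ← mul_pow]
    norm_num
  have hι' : ∀ i ∈ ι, w / 2 ≤ 1 - ‖y i‖ ∧ 1 - ‖y i‖ ≤ w := by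
    intro i hi
    obtain ⟨h1, h2⟩ := hι i hi
    refine ⟨?_, h2⟩
    rw [pow_succ] at h1
    linarith
  set f : ℕ → ℕ × ℕ := fun i => (⌊(1 - ‖y i‖) * 16 / (η * w)⌋₊,
    ⌊(Complex.arg (y i) + Real.pi) * 64 / (η * w)⌋₊) with hf
  set B : ℕ := (⌈448 / η⌉₊ + 1) * 2 ^ m with hB
  set t : Finset (ℕ × ℕ) := Finset.range (⌊16 / η⌋₊ + 1) ×ˢ Finset.range B with ht
  have hηw : 0 < η * w := mul_pos hη hw0
  have hmaps : ∀ i ∈ ι, f i ∈ t := by
    intro i hi
    obtain ⟨h1, h2⟩ := hι' i hi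
    rw [ht, Finset.mem_product, Finset.mem_range, Finset.mem_range]
    constructor
    · show ⌊(1 - ‖y i‖) * 16 / (η * w)⌋₊ < ⌊16 / η⌋₊ + 1
      rw [Nat.lt_add_one_iff]
      apply Nat.floor_le_floor
      rw [div_le_div_iff₀ hηw hη]
      have : (1 - ‖y i‖) * 16 * η ≤ w * 16 * η := by
        have h3 : 0 ≤ 16 * η := by positivity
        nlinarith
      linarith
    · show ⌊(Complex.arg (y i) + Real.pi) * 64 / (η * w)⌋₊ < B
      have hpi := Real.pi_lt_d2
      have hpi0 := Real.pi_pos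
      have ha1 := Complex.neg_pi_lt_arg (y i)
      have ha2 := Complex.arg_le_pi (y i)
      have hpos : 0 ≤ (Complex.arg (y i) + Real.pi) * 64 / (η * w) := by
        apply div_nonneg _ hηw.le
        linarith
      rw [Nat.floor_lt hpos, hB]
      push_cast
      have e1 : (Complex.arg (y i) + Real.pi) * 64 / (η * w) ≤ (448 / η) * 2 ^ m := by
        rw [div_le_iff₀ hηw]
        have e2 : (448 / η) * 2 ^ m * (η * w) = 448 := by
          have : (448 / η) * 2 ^ m * (η * w) = 448 * (w * 2 ^ m) * (η / η) := by ring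
          rw [this, hw2, div_self hη.ne']
          ring
        rw [e2]
        linarith
      have e3 : (448 / η) ≤ (⌈448 / η⌉₊ : ℝ) := Nat.le_ceil _
      have e4 : (0 : ℝ) < 2 ^ m := by positivity
      calc (Complex.arg (y i) + Real.pi) * 64 / (η * w) ≤ (448 / η) * 2 ^ m := e1
        _ ≤ (⌈448 / η⌉₊ : ℝ) * 2 ^ m := mul_le_mul_of_nonneg_right e3 e4.le
        _ < ((⌈448 / η⌉₊ : ℝ) + 1) * 2 ^ m := by
          apply mul_lt_mul_of_pos_right _ e4
          linarith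
  have hct : t.card * M < ι.card := by
    have e1 : t.card = (⌊16 / η⌋₊ + 1) * (⌈448 / η⌉₊ + 1) * 2 ^ m := by
      rw [ht, Finset.card_product, Finset.card_range, Finset.card_range, hB]
      ring
    rw [e1]
    exact hcard
  obtain ⟨z, -, hz⟩ := Finset.exists_lt_card_fiber_of_mul_lt_card_of_maps_to hmaps hct
  refine ⟨ι.filter (fun i => f i = z), Finset.filter_subset _ _, hz, ?_⟩
  intro i hi l hl
  rw [Finset.mem_filter] at hi hl
  obtain ⟨hi1, hi2⟩ := hi
  obtain ⟨hl1, hl2⟩ := hl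
  obtain ⟨a1, a2⟩ := hι' i hi1
  obtain ⟨b1, b2⟩ := hι' l hl1
  have hfil : f i = f l := hi2.trans hl2.symm
  have hf1 : ⌊(1 - ‖y i‖) * 16 / (η * w)⌋₊ = ⌊(1 - ‖y l‖) * 16 / (η * w)⌋₊ := congrArg Prod.fst hfil
  have hf2 : ⌊(Complex.arg (y i) + Real.pi) * 64 / (η * w)⌋₊ = ⌊(Complex.arg (y l) + Real.pi) * 64 / (η * w)⌋₊ :=
    congrArg Prod.snd hfil
  have hi0 : 0 ≤ 1 - ‖y i‖ := by linarith
  have hl0 : 0 ≤ 1 - ‖y l‖ := by linarith
  have c1 := COV_floor (u := (1 - ‖y i‖) * 16 / (η * w)) (v := (1 - ‖y l‖) * 16 / (η * w))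
    (div_nonneg (by linarith) hηw.le) (div_nonneg (by linarith) hηw.le) hf1
  have ha1 := Complex.neg_pi_lt_arg (y i)
  have ha2 := Complex.neg_pi_lt_arg (y l)
  have c2 := COV_floor (u := (Complex.arg (y i) + Real.pi) * 64 / (η * w))
    (v := (Complex.arg (y l) + Real.pi) * 64 / (η * w))
    (div_nonneg (by linarith) hηw.le) (div_nonneg (by linarith) hηw.le) hf2
  have d1 : |‖y i‖ - ‖y l‖| ≤ η * w / 16 := by
    have : (1 - ‖y i‖) * 16 / (η * w) - (1 - ‖y l‖) * 16 / (η * w) = (‖y l‖ - ‖y i‖) * (16 / (η * w)) := by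
      ring
    rw [this, abs_mul, abs_of_pos (by positivity : 0 < 16 / (η * w)), abs_sub_comm] at c1
    have e1 : |‖y i‖ - ‖y l‖| * (16 / (η * w)) * (η * w / 16) ≤ 1 * (η * w / 16) :=
      mul_le_mul_of_nonneg_right c1 (by positivity)
    have e2 : |‖y i‖ - ‖y l‖| * (16 / (η * w)) * (η * w / 16) = |‖y i‖ - ‖y l‖| * ((η * w) / (η * w)) := by
      ring
    rw [e2, div_self hηw.ne', mul_one, one_mul] at e1
    exact e1
  have d2 : |Complex.arg (y i) - Complex.arg (y l)| ≤ η * w / 64 := by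
    have : (Complex.arg (y i) + Real.pi) * 64 / (η * w) - (Complex.arg (y l) + Real.pi) * 64 / (η * w) =
        (Complex.arg (y i) - Complex.arg (y l)) * (64 / (η * w)) := by
      ring
    rw [this, abs_mul, abs_of_pos (by positivity : 0 < 64 / (η * w))] at c2
    have e1 : |Complex.arg (y i) - Complex.arg (y l)| * (64 / (η * w)) * (η * w / 64) ≤ 1 * (η * w / 64) :=
      mul_le_mul_of_nonneg_right c2 (by positivity)
    have e2 : |Complex.arg (y i) - Complex.arg (y l)| * (64 / (η * w)) * (η * w / 64) =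
        |Complex.arg (y i) - Complex.arg (y l)| * ((η * w) / (η * w)) := by
      ring
    rw [e2, div_self hηw.ne', mul_one, one_mul] at e1
    exact e1
  have hyl : ‖y l‖ ≤ 1 := by linarith
  have hyi : ‖y i‖ ≤ 1 := by linarith
  have d3 : ‖y l - y i‖ ≤ η * w / 4 := by
    have h3 := COV_dist (y l) (y i) hyi
    rw [abs_sub_comm] at d1 d2
    linarith
  have d4 : w / 2 ≤ ‖1 - (starRingEnd ℂ) (y i) * y l‖ := by
    have h2 : ‖(1 : ℂ)‖ - ‖(starRingEnd ℂ) (y i) * y l‖ ≤ ‖1 - (starRingEnd ℂ) (y i) * y l‖ :=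
      norm_sub_norm_le 1 _
    rw [norm_one, norm_mul, RCLike.norm_conj] at h2
    have h3 : ‖y i‖ * ‖y l‖ ≤ ‖y i‖ * 1 := mul_le_mul_of_nonneg_left hyl (norm_nonneg _)
    linarith
  unfold T
  rw [norm_div]
  have hpos : 0 < ‖1 - (starRingEnd ℂ) (y i) * y l‖ := by linarith
  rw [div_le_iff₀ hpos]
  have h5 : η * (w / 2) ≤ η * ‖1 - (starRingEnd ℂ) (y i) * y l‖ := mul_le_mul_of_nonneg_left d4 hη.le
  nlinarith

end HY
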