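import Pool.Agent.helper52.HY.Spec

/-! hy:MOB: the automorphisms of the unit disc. -/

set_option autoImplicit false

open Complex Metric Set Filter Topology MeasureTheory
open Pool.Agent.helper98.ILF Pool.Agent.helper16.Multibrot

noncomputable section

namespace HY

theorem MOB_mem {x : ℂ} : x ∈ UD ↔ ‖x‖ < 1 := by
  unfold UD
  rw [mem_ball_zero_iff]

theorem MOB_ne {a x : ℂ} (ha : ‖a‖ < 1) (hx : ‖x‖ < 1) : 1 - (starRingEnd ℂ) a * x ≠ 0 := by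
  intro h
  have h1 : (starRingEnd ℂ) a * x = 1 := (sub_eq_zero.mp h).symm
  have h2 : ‖a‖ * ‖x‖ = 1 := by
    have := congrArg norm h1
    rwa [norm_mul, RCLike.norm_conj, norm_one] at this
  nlinarith [norm_nonneg a, norm_nonneg x]

theorem MOB_ne' {a x : ℂ} (ha : ‖a‖ < 1) (hx : ‖x‖ < 1) : 1 + (starRingEnd ℂ) a * x ≠ 0 := by
  have h := MOB_ne ha (show ‖-x‖ < 1 by rwa [norm_neg])
  rwa [mul_neg, sub_neg_eq_add] at h

theorem MOB_id (a x : ℂ) : ‖1 - (starRingEnd ℂ) a * x‖ ^ 2 - ‖x - a‖ ^ 2 =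
    (1 - ‖a‖ ^ 2) * (1 - ‖x‖ ^ 2) := by
  rw [← Complex.normSq_eq_norm_sq, ← Complex.normSq_eq_norm_sq, ← Complex.normSq_eq_norm_sq,
    ← Complex.normSq_eq_norm_sq]
  simp only [Complex.normSq_apply, Complex.sub_re, Complex.sub_im, Complex.mul_re, Complex.mul_im,
    Complex.conj_re, Complex.conj_im, Complex.one_re, Complex.one_im]
  ring

theorem MOB_cc (a : ℂ) : (starRingEnd ℂ) a * a = (‖a‖ : ℂ) ^ 2 := by
  rw [mul_comm, Complex.mul_conj, Complex.normSq_eq_norm_sq]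
  push_cast
  rfl

theorem MOB_one {a : ℂ} (ha : ‖a‖ < 1) : (1 : ℂ) - (‖a‖ : ℂ) ^ 2 ≠ 0 := by
  have h := MOB_ne ha ha
  rwa [MOB_cc] at h

theorem MOB_ratio {a x : ℂ} (ha : ‖a‖ < 1) (hx : ‖x‖ < 1) :
    1 - ‖T a x‖ ^ 2 = (1 - ‖a‖ ^ 2) * (1 - ‖x‖ ^ 2) / ‖1 - (starRingEnd ℂ) a * x‖ ^ 2 := by
  have h0 : ‖1 - (starRingEnd ℂ) a * x‖ ≠ 0 := norm_ne_zero_iff.mpr (MOB_ne ha hx)
  rw [← MOB_id a x]
  unfold T
  rw [norm_div, div_pow, sub_div, div_self (pow_ne_zero 2 h0)]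

theorem MOB_T_lt {a x : ℂ} (ha : ‖a‖ < 1) (hx : ‖x‖ < 1) : ‖T a x‖ < 1 := by
  have h0 : 0 < ‖1 - (starRingEnd ℂ) a * x‖ := norm_pos_iff.mpr (MOB_ne ha hx)
  have h1 := MOB_ratio ha hx
  have h2 : 0 < (1 - ‖a‖ ^ 2) * (1 - ‖x‖ ^ 2) / ‖1 - (starRingEnd ℂ) a * x‖ ^ 2 := by
    apply div_pos
    · apply mul_pos
      · nlinarith [norm_nonneg a]
      · nlinarith [norm_nonneg x]
    · positivity
  by_contra h3
  push Not at h3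
  nlinarith [norm_nonneg (T a x)]

theorem MOB_S_eq (a x : ℂ) : S a x = T (-a) x := by
  unfold S T
  rw [map_neg, sub_neg_eq_add, neg_mul, sub_neg_eq_add]

theorem MOB_S_lt {a x : ℂ} (ha : ‖a‖ < 1) (hx : ‖x‖ < 1) : ‖S a x‖ < 1 := by
  rw [MOB_S_eq]
  exact MOB_T_lt (by rwa [norm_neg]) hx

theorem MOB_TS {a x : ℂ} (ha : ‖a‖ < 1) (hx : ‖x‖ < 1) : T a (S a x) = x := by
  have h0 := MOB_ne' ha hx
  have h1 := MOB_one ha
  have h2 : S a x - a = x * (1 - (‖a‖ : ℂ) ^ 2) / (1 + (starRingEnd ℂ) a * x) := by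
    rw [← MOB_cc]
    unfold S
    rw [div_sub' h0]
    congr 1
    ring
  have h3 : 1 - (starRingEnd ℂ) a * S a x = (1 - (‖a‖ : ℂ) ^ 2) / (1 + (starRingEnd ℂ) a * x) := by
    rw [← MOB_cc]
    unfold S
    rw [← mul_div_assoc, eq_div_iff h0, sub_mul, div_mul_cancel₀ _ h0]
    ring
  show (S a x - a) / (1 - (starRingEnd ℂ) a * S a x) = x
  rw [h2, h3, div_div_div_cancel_right₀ h0, mul_div_assoc, div_self h1, mul_one]

theorem MOB_ST {a x : ℂ} (ha : ‖a‖ < 1) (hx : ‖x‖ < 1) : S a (T a x) = x := by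
  have h := MOB_TS (a := -a) (x := x) (by rwa [norm_neg]) hx
  rw [MOB_S_eq a (T a x)]
  rw [MOB_S_eq (-a) x, neg_neg] at h
  exact h

theorem MOB_deriv {a x : ℂ} (ha : ‖a‖ < 1) (hx : ‖x‖ < 1) :
    HasDerivAt (T a) ((1 - (‖a‖ : ℂ) ^ 2) / (1 - (starRingEnd ℂ) a * x) ^ 2) x := by
  have h0 := MOB_ne ha hx
  have h1 : HasDerivAt (fun z : ℂ => z - a) 1 x := (hasDerivAt_id' x).sub_const a
  have h2 : HasDerivAt (fun z : ℂ => 1 - (starRingEnd ℂ) a * z) (-((starRingEnd ℂ) a * 1)) x :=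
    ((hasDerivAt_id' x).const_mul ((starRingEnd ℂ) a)).const_sub 1
  have h3 := h1.div h2 h0
  have h4 : (1 * (1 - (starRingEnd ℂ) a * x) - (x - a) * -((starRingEnd ℂ) a * 1)) /
      (1 - (starRingEnd ℂ) a * x) ^ 2 = (1 - (‖a‖ : ℂ) ^ 2) / (1 - (starRingEnd ℂ) a * x) ^ 2 := by
    rw [← MOB_cc]
    congr 1
    ring
  rw [h4] at h3
  exact h3

theorem MOB_derivS {a x : ℂ} (ha : ‖a‖ < 1) (hx : ‖x‖ < 1) :
    HasDerivAt (S a) ((1 - (‖a‖ : ℂ) ^ 2) / (1 + (starRingEnd ℂ) a * x) ^ 2) x := by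
  have h := MOB_deriv (a := -a) (x := x) (by rwa [norm_neg]) hx
  have e1 : T (-a) = S a := by
    funext z
    exact (MOB_S_eq a z).symm
  rw [e1, norm_neg, map_neg, neg_mul, sub_neg_eq_add] at h
  exact h

theorem MOB_symm (a x : ℂ) : ‖T a x‖ = ‖T x a‖ := by
  unfold T
  rw [norm_div, norm_div, norm_sub_rev x a]
  congr 1
  have h : 1 - (starRingEnd ℂ) x * a = (starRingEnd ℂ) (1 - (starRingEnd ℂ) a * x) := by
    rw [map_sub, map_mul, map_one, Complex.conj_conj, mul_comm]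
  rw [h, RCLike.norm_conj]

theorem MOB_last {a x : ℂ} (ha : ‖a‖ < 1) (hx : ‖x‖ < 1) (h : ‖T a x‖ ≤ 1 / 3) :
    1 - ‖x‖ ≤ 4 * (1 - ‖a‖) := by
  set u := T a x with hu
  have hu1 : ‖u‖ < 1 := MOB_T_lt ha hx
  have hxu : x = T (-a) u := by
    rw [← MOB_S_eq, hu, MOB_ST ha hx]
  have h1 := MOB_ratio (a := -a) (x := u) (by rwa [norm_neg]) hu1
  rw [← hxu, norm_neg, map_neg, neg_mul, sub_neg_eq_add] at h1
  have hD : 2 / 3 ≤ ‖1 + (starRingEnd ℂ) a * u‖ := by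
    have h2 : ‖(1 : ℂ)‖ - ‖(starRingEnd ℂ) a * u‖ ≤ ‖1 + (starRingEnd ℂ) a * u‖ :=
      norm_sub_le_norm_add 1 ((starRingEnd ℂ) a * u)
    rw [norm_one, norm_mul, RCLike.norm_conj] at h2
    have h3 : ‖a‖ * ‖u‖ ≤ 1 * (1 / 3) := mul_le_mul ha.le h (norm_nonneg u) zero_le_one
    linarith
  have hD2 : 4 / 9 ≤ ‖1 + (starRingEnd ℂ) a * u‖ ^ 2 := by nlinarith
  have hA : 1 - ‖a‖ ^ 2 ≤ 2 * (1 - ‖a‖) := by nlinarith [norm_nonneg a]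
  have hA0 : 0 ≤ 1 - ‖a‖ ^ 2 := by nlinarith [norm_nonneg a]
  have hX : 1 - ‖x‖ ≤ 1 - ‖x‖ ^ 2 := by nlinarith [norm_nonneg x]
  -- sharp form: (1 - t^2)/(1 - t)^2 = (1+t)/(1-t) ≤ 2
  have hD' : (1 - ‖u‖) ^ 2 ≤ ‖1 + (starRingEnd ℂ) a * u‖ ^ 2 := by
    have h2 : ‖(1 : ℂ)‖ - ‖(starRingEnd ℂ) a * u‖ ≤ ‖1 + (starRingEnd ℂ) a * u‖ :=
      norm_sub_le_norm_add 1 ((starRingEnd ℂ) a * u)
    rw [norm_one, norm_mul, RCLike.norm_conj] at h2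
    have h3 : ‖a‖ * ‖u‖ ≤ 1 * ‖u‖ := mul_le_mul_of_nonneg_right ha.le (norm_nonneg u)
    have h4 : 1 - ‖u‖ ≤ ‖1 + (starRingEnd ℂ) a * u‖ := by linarith
    have h5 : 0 ≤ 1 - ‖u‖ := by linarith
    exact pow_le_pow_left₀ h5 h4 2
  have hpos : 0 < ‖1 + (starRingEnd ℂ) a * u‖ ^ 2 := by linarith
  have hE : (1 - ‖a‖ ^ 2) * (1 - ‖u‖ ^ 2) / ‖1 + (starRingEnd ℂ) a * u‖ ^ 2 ≤
      2 * (1 - ‖a‖ ^ 2) := by
    rw [div_le_iff₀ hpos]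
    have h6 : 1 - ‖u‖ ^ 2 ≤ 2 * (1 - ‖u‖) ^ 2 := by
      have : (1 + ‖u‖) ≤ 2 * (1 - ‖u‖) := by linarith
      nlinarith [norm_nonneg u]
    calc (1 - ‖a‖ ^ 2) * (1 - ‖u‖ ^ 2) ≤ (1 - ‖a‖ ^ 2) * (2 * (1 - ‖u‖) ^ 2) :=
          mul_le_mul_of_nonneg_left h6 hA0
      _ ≤ (1 - ‖a‖ ^ 2) * (2 * ‖1 + (starRingEnd ℂ) a * u‖ ^ 2) :=
          mul_le_mul_of_nonneg_left (by linarith) hA0
      _ = 2 * (1 - ‖a‖ ^ 2) * ‖1 + (starRingEnd ℂ) a * u‖ ^ 2 := by ring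
  linarith

theorem MOB : MOB_stmt := by
  intro a ha
  have ha' := MOB_mem.mp ha
  refine ⟨?_, ?_, ?_, ?_, ?_, ?_, ?_, ?_, ?_, ?_, ?_, ?_⟩
  · intro x hx
    have hx' := MOB_mem.mp hx
    exact ⟨MOB_mem.mpr (MOB_T_lt ha' hx'), MOB_mem.mpr (MOB_S_lt ha' hx'), MOB_ST ha' hx', MOB_TS ha' hx'⟩
  · unfold T
    rw [sub_self, zero_div]
  · unfold S
    rw [zero_add, mul_zero, add_zero, div_one]
  · intro x hx
    exact (MOB_deriv ha' (MOB_mem.mp hx)).differentiableAt.differentiableWithinAt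
  · intro x hx
    exact (MOB_derivS ha' (MOB_mem.mp hx)).differentiableAt.differentiableWithinAt
  · intro x hx y hy hxy
    have h1 := MOB_ST ha' (MOB_mem.mp hx)
    have h2 := MOB_ST ha' (MOB_mem.mp hy)
    rw [← h1, hxy, h2]
  · intro x hx y hy hxy
    have h1 := MOB_TS ha' (MOB_mem.mp hx)
    have h2 := MOB_TS ha' (MOB_mem.mp hy)
    rw [← h1, hxy, h2]
  · intro x hx
    exact MOB_ratio ha' (MOB_mem.mp hx)
  · intro x _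
    exact MOB_symm a x
  · intro x hx
    exact (MOB_deriv ha' (MOB_mem.mp hx)).deriv
  · have h := (MOB_derivS (a := a) (x := 0) ha' (by rw [norm_zero]; norm_num)).deriv
    rw [h, mul_zero, add_zero, one_pow, div_one]
  · intro x hx h
    exact MOB_last ha' (MOB_mem.mp hx) h

end HY
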