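import Pool.Agent.helper52.HY.Spec

/-! hy:RMC: change of the base point of a Riemann map. -/

set_option autoImplicit false

open Complex Metric Set Filter Topology MeasureTheory
open Pool.Agent.helper98.ILF Pool.Agent.helper16.Multibrot

noncomputable section

namespace HY

theorem RMC (h : MOB_stmt) : RMC_stmt := by
  intro V a₀ a φ hφ haV
  rw [← hφ.img] at haV
  obtain ⟨b, hb, hba⟩ := haV
  refine ⟨b, hb, hba, ?_⟩
  obtain ⟨h1, h2, h3, h4, h5, h6, h7, -⟩ := h b hb
  have hmap : MapsTo (S b) UD UD := fun x hx => (h1 x hx).2.1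
  refine ⟨?_, ?_, ?_, ?_⟩
  · exact hφ.dif.comp h5 hmap
  · intro x hx y hy hxy
    exact h7 hx hy (hφ.inj (hmap hx) (hmap hy) hxy)
  · rw [← hφ.img]
    apply Set.Subset.antisymm
    · rintro _ ⟨x, hx, rfl⟩
      exact ⟨S b x, hmap hx, rfl⟩
    · rintro _ ⟨x, hx, rfl⟩
      refine ⟨T b x, (h1 x hx).1, ?_⟩
      show φ (S b (T b x)) = φ x
      rw [(h1 x hx).2.2.1]
  · show φ (S b 0) = a
    rw [h3, hba]

end HY
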